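import Pool.Agent.Q113.AugZar

/-!
# `z_{3A}(m,n)` is of quadratic order (Q1 of `MP_10302a_co`)
-/

namespace Pool.Agent.Results.MP_10302a_co.AugmentedQuadratic

open Pool.Agent.Q113.AugZar

/-- The augmented graph with no 1-edges and no 3-edges whose 2-edges join two diagonal blocks. -/
def G (m n : ℕ) : AugGraph m n where
  E1 := ∅
  E2 := blk m n 0 0 (m / 2) (n / 2) (by omega) (by omega)
  E3 := ∅
  card2 := fun _ he => blk_card2 _ _ he
  card3 := fun _ he => absurd he (Finset.notMem_empty _)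

lemma simple (m n : ℕ) : (G m n).Simple := by
  refine ⟨fun e _ c _ => by simp [G], ?_⟩
  intro e he f hf hef
  simp only [G, Finset.union_empty] at he hf
  exact blk_disj _ _ he hf hef

lemma cycleFree (m n : ℕ) : (G m n).CycleFree := by
  refine ⟨?_, ?_, ?_, ?_⟩
  · rintro ⟨i, k, j, l, -, -, h, -⟩
    simp [G] at h
  · rintro ⟨i, k, j, l, -, -, -, e, he, f, hf, -, hsub, h2, -⟩
    simp only [G, Finset.union_empty] at he hf
    exact blk_cond2 _ _ he hf i k j l hsub h2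
  · rintro ⟨i, p, k, j, q, l, he, -, -, -, -, hocc, -⟩
    obtain ⟨u, v, huv, h1, h2, h3, h4, h5, h6⟩ := mem_blk _ _ he
    have occ : ∀ d : Fin m × Fin n, (G m n).Occ12 d →
        (d.1.1 < m / 2 ∧ d.2.1 < n / 2) ∨ (m / 2 ≤ d.1.1 ∧ n / 2 ≤ d.2.1) := by
      rintro d (hd | ⟨e, he, hd⟩)
      · simp [G] at hd
      · have := blk_mem _ _ he hd
        omega
    have ha := occ _ (hocc (k, j) (by simp))
    have hb := occ _ (hocc (k, q) (by simp))
    have hju : (i, j) ∈ ({u, v} : Finset (Fin m × Fin n)) := by rw [← huv]; simp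
    have hqv : (p, q) ∈ ({u, v} : Finset (Fin m × Fin n)) := by rw [← huv]; simp
    have hu' : u ∈ ({(i, j), (p, q)} : Finset (Fin m × Fin n)) := by rw [huv]; simp
    have hv' : v ∈ ({(i, j), (p, q)} : Finset (Fin m × Fin n)) := by rw [huv]; simp
    simp only [Finset.mem_insert, Finset.mem_singleton] at hu' hv'
    simp only at ha hb
    rcases hu' with rfl | rfl <;> rcases hv' with rfl | rfl <;> simp only at * <;> omega
  · rintro ⟨i, p, u, k, j, q, v, l, he, -⟩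
    simp [G] at he

lemma lower (m n : ℕ) : (m / 2) * (n / 2) ≤ z3A m n := by
  refine le_csSup (bdd3A m n) ⟨G m n, simple m n, cycleFree m n, ?_⟩
  simp only [AugGraph.size, G, Finset.card_empty, zero_add, add_zero]
  rw [blk_card]

lemma upper (m n : ℕ) : z3A m n ≤ m * n := by
  refine csSup_le ⟨_, G m n, simple m n, cycleFree m n, rfl⟩ ?_
  rintro t ⟨G', h, -, rfl⟩
  exact size_le G' h

/-- **Q1 of `MP_10302a_co`.**  `⌊m/2⌋⌊n/2⌋ ≤ z_{3A}(m,n) ≤ m n` for all `m, n`, and no constant `C`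
satisfies `z_{3A}(m,n) ≤ C (m √n + n)` for all `m, n ≥ 2`. -/
theorem result :
    (∀ m n : ℕ, (m / 2) * (n / 2) ≤ z3A m n ∧ z3A m n ≤ m * n) ∧
    ¬ ∃ C : ℝ, ∀ m n : ℕ, 2 ≤ m → 2 ≤ n → (z3A m n : ℝ) ≤ C * ((m : ℝ) * √(n : ℝ) + (n : ℝ)) := by
  refine ⟨fun m n => ⟨lower m n, upper m n⟩, ?_⟩
  rintro ⟨C, hC⟩
  obtain ⟨k, hk⟩ := exists_nat_gt (max C 1)
  have hkC : C < k := lt_of_le_of_lt (le_max_left _ _) hk
  have hk1 : (1 : ℝ) < k := lt_of_le_of_lt (le_max_right _ _) hk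
  have hk1' : 1 < k := by exact_mod_cast hk1
  set N : ℕ := (8 * k) ^ 2 with hN
  have hNge : 2 ≤ N := by rw [hN]; nlinarith
  have h := hC N N hNge hNge
  have hs : √(N : ℝ) = 8 * k := by
    rw [hN]; push_cast
    rw [Real.sqrt_sq (by positivity)]
  have hlow := lower N N
  have hdiv : N / 2 = 32 * k ^ 2 := by
    rw [hN]
    have : (8 * k) ^ 2 = (32 * k ^ 2) * 2 := by ring
    rw [this, Nat.mul_div_cancel _ (by norm_num)]
  rw [hdiv] at hlow
  have hlow' : ((32 * (k : ℝ) ^ 2) * (32 * (k : ℝ) ^ 2)) ≤ (z3A N N : ℝ) := by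
    exact_mod_cast hlow
  rw [hs] at h
  have hNr : (N : ℝ) = 64 * (k : ℝ) ^ 2 := by rw [hN]; push_cast; ring
  rw [hNr] at h
  have h3 : (z3A N N : ℝ) ≤ C * (64 * (k : ℝ) ^ 2 * (8 * k) + 64 * (k : ℝ) ^ 2) := h
  have h4 : C * (64 * (k : ℝ) ^ 2 * (8 * k) + 64 * (k : ℝ) ^ 2) ≤
      k * (64 * (k : ℝ) ^ 2 * (8 * k) + 64 * (k : ℝ) ^ 2) := by
    apply mul_le_mul_of_nonneg_right hkC.le (by positivity)
  have hpos : 0 < (k : ℝ) ^ 3 := by positivity
  nlinarith [hlow', h3, h4, hpos, mul_pos hpos (by linarith : (0 : ℝ) < k)]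

end Pool.Agent.Results.MP_10302a_co.AugmentedQuadratic
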