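import Pool.Agent.Q113.AugZar

/-!
# `z_{3L}(m,n)` is not `O(m √n + n)` (Q2 of `MP_10302a_co`)

For `n ≥ C(m,2)` one has `z(m,n) = n + C(m,2)`; an extremal set of 1-edges consists of one column
for each pair of rows and of single cells of row `0` in all other columns.  Two diagonal blocks in
the rows `≥ 1` and the other columns, with corresponding cells joined by 2-edges, can be added.
-/

namespace Pool.Agent.Results.MP_10302a_co.ClassicalExtremal

open Pool.Agent.Q113.AugZar

/-- Upper bound for the Zarankiewicz number: a rectangle-free set of cells has at most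
`n + C(m,2)` elements. -/
lemma rectFree_card_le {m n : ℕ} (E : Finset (Fin m × Fin n)) (hE : ¬ HasRect E) :
    E.card ≤ n + m.choose 2 := by
  classical
  -- columns
  let col : Fin n → Finset (Fin m) := fun l => Finset.univ.filter (fun i => (i, l) ∈ E)
  have hcard : E.card = ∑ l : Fin n, (col l).card := by
    have h1 : E = (Finset.univ : Finset (Fin n)).biUnion
        (fun l => (col l).image (fun i => (i, l))) := by
      ext ⟨i, l⟩
      simp [col]
    have h2 : E.card = ∑ l : Fin n, ((col l).image (fun i => (i, l))).card := by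
      conv_lhs => rw [h1]
      apply Finset.card_biUnion
      intro l _ l' _ hll
      rw [Function.onFun, Finset.disjoint_left]
      intro x hx hx'
      obtain ⟨i, -, rfl⟩ := Finset.mem_image.1 hx
      obtain ⟨i', -, h⟩ := Finset.mem_image.1 hx'
      exact hll (congrArg Prod.snd h).symm
    rw [h2]
    refine Finset.sum_congr rfl fun l _ => ?_
    apply Finset.card_image_of_injective
    intro i i' h
    exact congrArg Prod.fst h
  have hpair : ∑ l : Fin n, ((col l).powersetCard 2).card ≤ m.choose 2 := by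
    rw [← Finset.card_biUnion]
    · calc ((Finset.univ : Finset (Fin n)).biUnion (fun l => (col l).powersetCard 2)).card
          ≤ ((Finset.univ : Finset (Fin m)).powersetCard 2).card := by
            apply Finset.card_le_card
            intro s hs
            obtain ⟨l, -, hs⟩ := Finset.mem_biUnion.1 hs
            rw [Finset.mem_powersetCard] at hs ⊢
            exact ⟨Finset.subset_univ _, hs.2⟩
        _ = m.choose 2 := by simp
    · intro l _ l' _ hll
      rw [Function.onFun, Finset.disjoint_left]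
      intro s hs hs'
      rw [Finset.mem_powersetCard] at hs hs'
      obtain ⟨i, k, hik, rfl⟩ := Finset.card_eq_two.1 hs.2
      apply hE
      refine ⟨i, k, l, l', hik, hll, ?_, ?_, ?_, ?_⟩
      · have := hs.1 (Finset.mem_insert_self i {k}); simpa [col] using this
      · have := hs'.1 (Finset.mem_insert_self i {k}); simpa [col] using this
      · have := hs.1 (Finset.mem_insert_of_mem (Finset.mem_singleton_self k))
        simpa [col] using this
      · have := hs'.1 (Finset.mem_insert_of_mem (Finset.mem_singleton_self k))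
        simpa [col] using this
  have hle : ∀ l : Fin n, (col l).card ≤ 1 + ((col l).powersetCard 2).card := by
    intro l
    rw [Finset.card_powersetCard]
    generalize (col l).card = d
    rcases Nat.lt_or_ge d 2 with h | h
    · omega
    · have h1 : d.choose 1 ≤ 1 + d.choose 2 := by
        rw [Nat.choose_one_right]
        have : d.choose 2 * 2 = d * (d - 1) := by
          rw [Nat.choose_two_right, Nat.div_mul_cancel (Nat.even_mul_pred_self d).two_dvd]
        obtain ⟨e, rfl⟩ : ∃ e, d = e + 2 := ⟨d - 2, by omega⟩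
        simp only [show e + 2 - 1 = e + 1 from rfl] at this
        nlinarith
      rwa [Nat.choose_one_right] at h1
  calc E.card = ∑ l : Fin n, (col l).card := hcard
    _ ≤ ∑ l : Fin n, (1 + ((col l).powersetCard 2).card) := Finset.sum_le_sum fun l _ => hle l
    _ = n + ∑ l : Fin n, ((col l).powersetCard 2).card := by
        rw [Finset.sum_add_distrib]; simp
    _ ≤ n + m.choose 2 := by omega

section

variable (m n : ℕ)

/-- A bijection of `Fin C(m,2)` with the 2-element subsets of `Fin m`. -/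
noncomputable def pe : ((Finset.univ : Finset (Fin m)).powersetCard 2) ≃ Fin (m.choose 2) :=
  Finset.equivFinOfCardEq (by simp)

/-- the pair of rows of the column `l < C(m,2)` -/
noncomputable def pr (l : Fin (m.choose 2)) : Finset (Fin m) := ((pe m).symm l).1

lemma pr_card (l : Fin (m.choose 2)) : (pr m l).card = 2 :=
  (Finset.mem_powersetCard.1 ((pe m).symm l).2).2

lemma pr_inj {l l' : Fin (m.choose 2)} (h : pr m l = pr m l') : l = l' :=
  (pe m).symm.injective (Subtype.ext h)

/-- the rows of the 1-edges in column `l` -/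
noncomputable def colE (l : Fin n) : Finset (Fin m) :=
  if h : l.1 < m.choose 2 then pr m ⟨l.1, h⟩ else Finset.univ.filter (fun i => i.1 = 0)

/-- the extremal set of 1-edges -/
noncomputable def E1 : Finset (Fin m × Fin n) := Finset.univ.filter (fun c => c.1 ∈ colE m n c.2)

variable {m n}

lemma mem_E1 {c : Fin m × Fin n} : c ∈ E1 m n ↔ c.1 ∈ colE m n c.2 := by simp [E1]

lemma E1_big {c : Fin m × Fin n} (hc : m.choose 2 ≤ c.2.1) : c ∈ E1 m n ↔ c.1.1 = 0 := by
  rw [mem_E1, colE, dif_neg (by omega)]; simp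

lemma E1_small {c : Fin m × Fin n} (hc : c.2.1 < m.choose 2) :
    c ∈ E1 m n ↔ c.1 ∈ pr m ⟨c.2.1, hc⟩ := by
  rw [mem_E1, colE, dif_pos hc]

lemma E1_card (hm : 1 ≤ m) (hn : m.choose 2 ≤ n) : (E1 m n).card = n + m.choose 2 := by
  classical
  have h1 : E1 m n = (Finset.univ : Finset (Fin n)).biUnion
      (fun l => (colE m n l).image (fun i => (i, l))) := by
    ext ⟨i, l⟩
    simp [E1]
  have h2 : (E1 m n).card = ∑ l : Fin n, ((colE m n l).image (fun i => (i, l))).card := by
    conv_lhs => rw [h1]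
    apply Finset.card_biUnion
    intro l _ l' _ hll
    rw [Function.onFun, Finset.disjoint_left]
    intro x hx hx'
    obtain ⟨i, -, rfl⟩ := Finset.mem_image.1 hx
    obtain ⟨i', -, h⟩ := Finset.mem_image.1 hx'
    exact hll (congrArg Prod.snd h).symm
  have h3 : ∀ l : Fin n, ((colE m n l).image (fun i => (i, l))).card =
      1 + if l.1 < m.choose 2 then 1 else 0 := by
    intro l
    rw [Finset.card_image_of_injective _ (fun i i' h => congrArg Prod.fst h)]
    unfold colE
    split_ifs with h
    · rw [pr_card]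
    · have : (Finset.univ.filter (fun i : Fin m => i.1 = 0)) = {⟨0, hm⟩} := by
        ext i
        simp [Fin.ext_iff]
      rw [this]; simp
  rw [h2, Finset.sum_congr rfl (fun l _ => h3 l), Finset.sum_add_distrib]
  have h4 : ∑ l : Fin n, (if l.1 < m.choose 2 then 1 else 0) = m.choose 2 := by
    rw [← Finset.card_filter]
    have : (Finset.univ.filter (fun l : Fin n => l.1 < m.choose 2)) =
        (Finset.univ : Finset (Fin (m.choose 2))).map (Fin.castLEEmb hn) := by
      ext l
      simp only [Finset.mem_filter, Finset.mem_univ, true_and, Finset.mem_map]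
      constructor
      · intro h; exact ⟨⟨l.1, h⟩, rfl⟩
      · rintro ⟨a, rfl⟩; exact a.2
    rw [this]; simp
  rw [h4]; simp

lemma E1_rectFree : ¬ HasRect (E1 m n) := by
  rintro ⟨i, k, j, l, hik, hjl, h1, h2, h3, h4⟩
  rcases Nat.lt_or_ge j.1 (m.choose 2) with hj | hj
  · rcases Nat.lt_or_ge l.1 (m.choose 2) with hl | hl
    · rw [E1_small hj] at h1 h3
      rw [E1_small hl] at h2 h4
      simp only at h1 h2 h3 h4
      have e1 : ({i, k} : Finset (Fin m)) = pr m ⟨j.1, hj⟩ := by
        apply Finset.eq_of_subset_of_card_le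
        · intro x hx
          rcases Finset.mem_insert.1 hx with rfl | hx
          · exact h1
          · rw [Finset.mem_singleton] at hx; subst hx; exact h3
        · rw [pr_card, Finset.card_pair hik]
      have e2 : ({i, k} : Finset (Fin m)) = pr m ⟨l.1, hl⟩ := by
        apply Finset.eq_of_subset_of_card_le
        · intro x hx
          rcases Finset.mem_insert.1 hx with rfl | hx
          · exact h2
          · rw [Finset.mem_singleton] at hx; subst hx; exact h4
        · rw [pr_card, Finset.card_pair hik]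
      have := pr_inj m (e1.symm.trans e2)
      apply hjl
      exact Fin.ext (by simpa [Fin.ext_iff] using this)
    · rw [E1_big hl] at h2 h4
      exact hik (Fin.ext (by simp only at h2 h4; omega))
  · rw [E1_big hj] at h1 h3
    exact hik (Fin.ext (by simp only at h1 h3; omega))

/-- `z(m,n) = n + C(m,2)` for `n ≥ C(m,2)`. -/
lemma z_eq (hm : 1 ≤ m) (hn : m.choose 2 ≤ n) : z m n = n + m.choose 2 := by
  apply le_antisymm
  · refine csSup_le ⟨_, E1 m n, E1_rectFree, rfl⟩ ?_
    rintro t ⟨E, hE, rfl⟩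
    exact rectFree_card_le E hE
  · exact le_csSup (bddz m n) ⟨E1 m n, E1_rectFree, (E1_card hm hn).symm⟩

/-- The augmented graph. -/
noncomputable def G (hm : 1 ≤ m) (hn : m.choose 2 ≤ n) : AugGraph m n where
  E1 := E1 m n
  E2 := blk m n 1 (m.choose 2) ((m - 1) / 2) ((n - m.choose 2) / 2) (by omega) (by omega)
  E3 := ∅
  card2 := fun _ he => blk_card2 _ _ he
  card3 := fun _ he => absurd he (Finset.notMem_empty _)

lemma simple (hm : 1 ≤ m) (hn : m.choose 2 ≤ n) : (G hm hn).Simple := by
  refine ⟨fun e he c hc hc' => ?_, ?_⟩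
  · simp only [G, Finset.union_empty] at he hc'
    have h := blk_mem _ _ he hc
    rw [E1_big (by omega)] at hc'
    omega
  · intro e he f hf hef
    simp only [G, Finset.union_empty] at he hf
    exact blk_disj _ _ he hf hef

/-- `i, p, k` distinct rows with `i` in the first and `p` in the second row block. -/
lemma core (hm : 1 ≤ m) (hn : m.choose 2 ≤ n) {i p k : Fin m} {j q l : Fin n}
    (hi : 1 ≤ i.1 ∧ i.1 < 1 + (m - 1) / 2)
    (hj : m.choose 2 ≤ j.1 ∧ j.1 < m.choose 2 + (n - m.choose 2) / 2)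
    (hp : 1 + (m - 1) / 2 ≤ p.1)
    (hq : m.choose 2 + (n - m.choose 2) / 2 ≤ q.1)
    (h1 : (G hm hn).Occ12 (k, j)) (h2 : (G hm hn).Occ12 (k, q))
    (h3 : (G hm hn).Occ12 (i, l)) (h4 : (G hm hn).Occ12 (p, l))
    (h5 : (G hm hn).Occ12 (k, l)) : False := by
  have occ : ∀ d : Fin m × Fin n, m.choose 2 ≤ d.2.1 → (G hm hn).Occ12 d → d.1.1 = 0 ∨
      ((1 ≤ d.1.1 ∧ d.1.1 < 1 + (m - 1) / 2 ∧
        d.2.1 < m.choose 2 + (n - m.choose 2) / 2) ∨
      (1 + (m - 1) / 2 ≤ d.1.1 ∧ m.choose 2 + (n - m.choose 2) / 2 ≤ d.2.1)) := by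
    rintro d hd0 (hd | ⟨e, he, hd⟩)
    · left; exact (E1_big hd0).1 hd
    · right
      have := blk_mem _ _ he hd
      omega
  have occ' : ∀ d : Fin m × Fin n, ∀ hd : d.2.1 < m.choose 2, (G hm hn).Occ12 d →
      d.1 ∈ pr m ⟨d.2.1, hd⟩ := by
    rintro d hd0 (hd | ⟨e, he, hd⟩)
    · exact (E1_small hd0).1 hd
    · have := blk_mem _ _ he hd
      omega
  have hk : k.1 = 0 := by
    have a := occ _ (by simp only; omega) h1
    have b := occ _ (by simp only; omega) h2
    simp only at a b
    omega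
  rcases Nat.lt_or_ge l.1 (m.choose 2) with hl | hl
  · have a := occ' _ (by simpa using hl) h3
    have b := occ' _ (by simpa using hl) h4
    have c := occ' _ (by simpa using hl) h5
    simp only at a b c
    have hsub : ({i, p, k} : Finset (Fin m)) ⊆ pr m ⟨l.1, hl⟩ := by
      intro x hx
      simp only [Finset.mem_insert, Finset.mem_singleton] at hx
      rcases hx with rfl | rfl | rfl <;> assumption
    have h3c : ({i, p, k} : Finset (Fin m)).card = 3 := by
      rw [Finset.card_eq_three]
      refine ⟨i, p, k, ?_, ?_, ?_, rfl⟩ <;>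
      · intro h
        have := congrArg Fin.val h
        omega
    have := Finset.card_le_card hsub
    rw [h3c, pr_card] at this
    omega
  · have a := occ _ (by simpa using hl) h3
    have b := occ _ (by simpa using hl) h4
    simp only at a b
    omega

lemma cycleFree (hm : 1 ≤ m) (hn : m.choose 2 ≤ n) : (G hm hn).CycleFree := by
  refine ⟨E1_rectFree, ?_, ?_, ?_⟩
  · rintro ⟨i, k, j, l, -, -, -, e, he, f, hf, -, hsub, h2, -⟩
    simp only [G, Finset.union_empty] at he hf
    exact blk_cond2 _ _ he hf i k j l hsub h2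
  · rintro ⟨i, p, k, j, q, l, he, -, -, -, -, hocc, -⟩
    obtain ⟨u, v, huv, h1, h2, h3, h4, h5, h6⟩ := mem_blk _ _ he
    have hu' : u ∈ ({(i, j), (p, q)} : Finset (Fin m × Fin n)) := by rw [huv]; simp
    have hv' : v ∈ ({(i, j), (p, q)} : Finset (Fin m × Fin n)) := by rw [huv]; simp
    simp only [Finset.mem_insert, Finset.mem_singleton] at hu' hv'
    have o1 := hocc (k, j) (by simp)
    have o2 := hocc (k, q) (by simp)
    have o3 := hocc (i, l) (by simp)
    have o4 := hocc (p, l) (by simp)
    have o5 := hocc (k, l) (by simp)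
    rcases hu' with rfl | rfl <;> rcases hv' with rfl | rfl
    · simp only at h1 h2 h3 h4 h5 h6; omega
    · simp only at h1 h2 h3 h4 h5 h6
      exact core hm hn ⟨h1, h2⟩ ⟨h3, h4⟩ (by omega) (by omega) o1 o2 o3 o4 o5
    · simp only at h1 h2 h3 h4 h5 h6
      exact core hm hn ⟨h1, h2⟩ ⟨h3, h4⟩ (by omega) (by omega) o2 o1 o4 o3 o5
    · simp only at h1 h2 h3 h4 h5 h6; omega
  · rintro ⟨i, p, u, k, j, q, v, l, he, -⟩
    simp [G] at he

lemma lower (hm : 1 ≤ m) (hn : m.choose 2 ≤ n) :
    n + m.choose 2 + ((m - 1) / 2) * ((n - m.choose 2) / 2) ≤ z3L m n := by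
  refine le_csSup (bdd3L m n) ⟨G hm hn, simple hm hn, cycleFree hm hn, ?_, ?_⟩
  · rw [z_eq hm hn]; exact E1_card hm hn
  · simp only [AugGraph.size, G, Finset.card_empty, add_zero]
    rw [blk_card, E1_card hm hn]

end

/-- **Q2 of `MP_10302a_co`.**  For `m ≥ 1` and `n ≥ C(m,2)` one has `z(m,n) = n + C(m,2)` and
`z_{3L}(m,n) ≥ n + C(m,2) + ⌊(m-1)/2⌋ ⌊(n - C(m,2))/2⌋`; no constant `C` satisfies
`z_{3L}(m,n) ≤ C (m √n + n)` for all `m, n ≥ 2`. -/
theorem result :
    (∀ m n : ℕ, 1 ≤ m → m.choose 2 ≤ n → z m n = n + m.choose 2 ∧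
      n + m.choose 2 + ((m - 1) / 2) * ((n - m.choose 2) / 2) ≤ z3L m n) ∧
    ¬ ∃ C : ℝ, ∀ m n : ℕ, 2 ≤ m → 2 ≤ n → (z3L m n : ℝ) ≤ C * ((m : ℝ) * √(n : ℝ) + (n : ℝ)) := by
  refine ⟨fun m n hm hn => ⟨z_eq hm hn, lower hm hn⟩, ?_⟩
  rintro ⟨C, hC⟩
  -- m = 32 k + 1, n = m ^ 2
  obtain ⟨k, hk⟩ := exists_nat_gt (max C 1)
  have hkC : C < k := lt_of_le_of_lt (le_max_left _ _) hk
  have hk1 : (1 : ℝ) < k := lt_of_le_of_lt (le_max_right _ _) hk
  have hk1' : 1 < k := by exact_mod_cast hk1
  set m : ℕ := 32 * k + 1 with hm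
  have hch : m.choose 2 = (32 * k + 1) * (16 * k) := by
    rw [Nat.choose_two_right, hm]
    have : (32 * k + 1) * (32 * k + 1 - 1) = ((32 * k + 1) * (16 * k)) * 2 := by
      simp only [Nat.add_sub_cancel]; ring
    rw [this, Nat.mul_div_cancel _ (by norm_num)]
  have hmn : m.choose 2 ≤ m ^ 2 := by
    rw [hch, hm]; nlinarith
  have h := hC m (m ^ 2) (by omega) (by rw [hm]; nlinarith)
  have hs : √((m ^ 2 : ℕ) : ℝ) = (m : ℝ) := by
    push_cast
    rw [Real.sqrt_sq (by positivity)]
  rw [hs] at h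
  have hlow := lower (m := m) (n := m ^ 2) (by omega) hmn
  have h1 : (m - 1) / 2 = 16 * k := by omega
  have h2 : 8 * k * m ≤ (m ^ 2 - m.choose 2) / 2 := by
    rw [Nat.le_div_iff_mul_le (by norm_num)]
    rw [hch, hm]
    have : (32 * k + 1) ^ 2 =
        (32 * k + 1) * (16 * k) + ((32 * k + 1) * (16 * k) + (32 * k + 1)) := by
      ring
    rw [this, Nat.add_sub_cancel_left]
    nlinarith
  have h3 : (16 * k) * (8 * k * m) ≤ z3L m (m ^ 2) := by
    rw [h1] at hlow
    have := Nat.mul_le_mul_left (16 * k) h2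
    omega
  have h3' : (16 * (k : ℝ)) * (8 * k * m) ≤ (z3L m (m ^ 2) : ℝ) := by exact_mod_cast h3
  have h4 : C * ((m : ℝ) * m + ((m ^ 2 : ℕ) : ℝ)) ≤ k * ((m : ℝ) * m + ((m ^ 2 : ℕ) : ℝ)) :=
    mul_le_mul_of_nonneg_right hkC.le (by positivity)
  push_cast at h h4
  have hmr : (m : ℝ) = 32 * k + 1 := by rw [hm]; push_cast; ring
  have hm0 : (0 : ℝ) < m := by rw [hmr]; positivity
  have h5 : (16 * (k : ℝ)) * (8 * k * m) ≤ k * ((m : ℝ) * m + (m : ℝ) ^ 2) := by linarith
  have hkm : (0 : ℝ) < k * m := by positivity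
  have h6 : (k * (m : ℝ)) * (128 * k) ≤ (k * m) * (2 * m) := by nlinarith
  have h7 : 128 * (k : ℝ) ≤ 2 * m := le_of_mul_le_mul_left h6 hkm
  rw [hmr] at h7
  linarith

end Pool.Agent.Results.MP_10302a_co.ClassicalExtremal
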